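import Pool.Agent.Helper65.CG.Defs2

/-!
# Project UB, module G2: the labelling of a position
-/

set_option autoImplicit false
set_option linter.unusedVariables false

namespace Pool.Agent.Helper65.CG

open scoped Classical
open Pool.Agent.Helper65.CliqueGame

variable {n q m : ℕ}

private theorem h88_ga_eq (ℓ : Sym2 (Fin n) → ℕ) (U : Finset (Sym2 (Fin n))) (T : Finset ℕ)
    (hT : ∀ a ∈ T, 2 ≤ a) (hU : ∀ e ∈ U, 2 ≤ ℓ e → ℓ e ∈ T) :
    ga ℓ U = ∑ a ∈ T, Real.logb 2 (1 + (cnt ℓ U a : ℝ)) := by
  unfold ga
  apply Finset.sum_subset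
  · intro a ha
    rw [Finset.mem_filter, Finset.mem_image] at ha
    obtain ⟨⟨e, he, rfl⟩, h2⟩ := ha
    exact hU e he h2
  · intro a ha ha'
    have h0 : cnt ℓ U a = 0 := by
      unfold cnt
      rw [Finset.card_eq_zero, Finset.filter_eq_empty_iff]
      intro e he hea
      apply ha'
      rw [Finset.mem_filter, Finset.mem_image]
      exact ⟨⟨e, he, hea⟩, hT a ha⟩
    simp [h0]

theorem h88_labOf_zero_iff (Rs : List (Finset (Sym2 (Fin n)))) (e : Sym2 (Fin n)) :
    labOf Rs e = 0 ↔ e ∉ uni Rs := by
  induction Rs with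
  | nil => simp [labOf]
  | cons R Rs ih =>
    by_cases h : e ∈ R
    · simp [labOf, h]
    · simp [labOf, h, ih]

theorem h88_labOf_ne_one (Rs : List (Finset (Sym2 (Fin n)))) (e : Sym2 (Fin n)) :
    labOf Rs e ≠ 1 := by
  induction Rs with
  | nil => simp [labOf]
  | cons R Rs ih =>
    by_cases h : e ∈ R
    · simp [labOf, h]
    · simpa [labOf, h] using ih

theorem h88_uni_disjoint {R : Finset (Sym2 (Fin n))} {Rs : List (Finset (Sym2 (Fin n)))}
    (h2 : (R :: Rs).Pairwise Disjoint) : Disjoint R (uni Rs) := by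
  rw [Finset.disjoint_left]
  intro e he he'
  obtain ⟨R', hR', heR'⟩ := mem_uni.1 he'
  exact Finset.disjoint_left.1 ((List.pairwise_cons.1 h2).1 R' hR') he heR'

theorem h88_labOf_le {Rs : List (Finset (Sym2 (Fin n)))} (h2 : Rs.Pairwise Disjoint)
    (e : Sym2 (Fin n)) : labOf Rs e ≤ (uni Rs).card + 1 := by
  induction Rs with
  | nil => simp [labOf]
  | cons R Rs ih =>
    have hd := h88_uni_disjoint h2
    have hc : (uni (R :: Rs)).card = R.card + (uni Rs).card := by
      rw [uni_cons, Finset.card_union_of_disjoint hd]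
    rw [hc]
    by_cases h : e ∈ R
    · have h1 : 1 ≤ R.card := Finset.card_pos.2 ⟨e, h⟩
      simp only [labOf, h, if_true]
      omega
    · have h1 := ih (List.pairwise_cons.1 h2).2
      simp only [labOf, h, if_false]
      omega

theorem h88_labOf_size {Rs : List (Finset (Sym2 (Fin n)))} (h1 : ∀ R ∈ Rs, R.card ≤ m)
    (h2 : Rs.Pairwise Disjoint) (a : ℕ) (ha : 2 ≤ a) :
    (Finset.univ.filter (fun e => labOf Rs e = a)).card ≤ m := by
  induction Rs with
  | nil =>
    have h : (Finset.univ.filter (fun e : Sym2 (Fin n) => labOf [] e = a)) = ∅ := by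
      rw [Finset.filter_eq_empty_iff]
      intro e _ h
      simp only [labOf] at h
      omega
    rw [h]
    simp
  | cons R Rs ih =>
    have ih' := ih (fun R' hR' => h1 R' (List.mem_cons_of_mem _ hR')) (List.pairwise_cons.1 h2).2
    by_cases hc : a = (uni Rs).card + 2
    · refine le_trans (Finset.card_le_card ?_) (h1 R List.mem_cons_self)
      intro e he
      rw [Finset.mem_filter] at he
      by_contra hR
      have h3 := he.2
      simp only [labOf, hR, if_false] at h3
      have h4 := h88_labOf_le (List.pairwise_cons.1 h2).2 e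
      omega
    · refine le_trans (Finset.card_le_card ?_) ih'
      intro e he
      rw [Finset.mem_filter] at he ⊢
      refine ⟨he.1, ?_⟩
      have h3 := he.2
      by_cases hR : e ∈ R
      · simp only [labOf, hR, if_true] at h3
        exact absurd h3.symm hc
      · simpa only [labOf, hR, if_false] using h3

theorem h88_card_edges_le_sq (n : ℕ) : (edges n).card ≤ n ^ 2 := by
  refine le_trans (Finset.card_le_univ _) ?_
  have h := Fintype.card_le_of_surjective (fun p : Fin n × Fin n => s(p.1, p.2)) (by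
    intro e
    induction e with
    | _ a b => exact ⟨(a, b), rfl⟩)
  rw [Fintype.card_prod, Fintype.card_fin] at h
  rw [sq]
  exact h

theorem labP_lab {Rs : List (Finset (Sym2 (Fin n)))} {B : Finset (Sym2 (Fin n))}
    (h1 : ∀ R ∈ Rs, R.card ≤ m) (h2 : Rs.Pairwise Disjoint) (h3 : Disjoint (uni Rs) B)
    (h4 : uni Rs ⊆ edges n) (h5 : B ⊆ edges n) : Lab m (labP Rs B) := by
  refine ⟨fun e he => ?_, fun e => ?_, fun a ha => ?_⟩
  · have hB : e ∉ B := fun h => (Finset.mem_filter.1 (h5 h)).2 he
    have hU : e ∉ uni Rs := fun h => (Finset.mem_filter.1 (h4 h)).2 he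
    simp only [labP, hB, if_false]
    exact (h88_labOf_zero_iff Rs e).2 hU
  · unfold labP
    split_ifs
    · omega
    · refine (h88_labOf_le h2 e).trans ?_
      have := (Finset.card_le_card h4).trans (h88_card_edges_le_sq n)
      omega
  · refine le_trans (Finset.card_le_card ?_) (h88_labOf_size h1 h2 a ha)
    intro e he
    rw [Finset.mem_filter] at he ⊢
    refine ⟨he.1, ?_⟩
    have h6 := he.2
    unfold labP at h6
    split_ifs at h6
    · omega
    · exact h6

theorem labP_zero {Rs : List (Finset (Sym2 (Fin n)))} {B : Finset (Sym2 (Fin n))}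
    (e : Sym2 (Fin n)) : labP Rs B e = 0 ↔ e ∉ uni Rs ∧ e ∉ B := by
  unfold labP
  split_ifs with h
  · simp [h]
  · rw [h88_labOf_zero_iff]
    simp [h]

theorem labP_one {Rs : List (Finset (Sym2 (Fin n)))} {B : Finset (Sym2 (Fin n))}
    (e : Sym2 (Fin n)) : labP Rs B e = 1 ↔ e ∈ B := by
  unfold labP
  split_ifs with h
  · simp [h]
  · simp [h, h88_labOf_ne_one]

theorem h88_labOf_ga {Rs : List (Finset (Sym2 (Fin n)))} (h2 : Rs.Pairwise Disjoint)
    (U : Finset (Sym2 (Fin n))) :
    (Rs.map (fun R => (1 + ((R ∩ U).card : ℝ)))).prod = (2 : ℝ) ^ ga (labOf Rs) U := by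
  induction Rs with
  | nil =>
    have h : ga (labOf ([] : List (Finset (Sym2 (Fin n))))) U = 0 := by
      rw [h88_ga_eq _ U ∅ (by simp) (by simp [labOf])]
      simp
    rw [h]
    simp
  | cons R Rs ih =>
    have ih' := ih (List.pairwise_cons.1 h2).2
    have hd := h88_uni_disjoint h2
    rw [List.map_cons, List.prod_cons, ih']
    have e1 : ga (labOf Rs) U = ∑ a ∈ Finset.Icc 2 ((uni Rs).card + 1),
        Real.logb 2 (1 + (cnt (labOf Rs) U a : ℝ)) := by
      apply h88_ga_eq
      · intro a ha
        exact (Finset.mem_Icc.1 ha).1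
      · intro e _ he
        exact Finset.mem_Icc.2 ⟨he, h88_labOf_le (List.pairwise_cons.1 h2).2 e⟩
    have e2 : ga (labOf (R :: Rs)) U = ∑ a ∈ Finset.Icc 2 ((uni Rs).card + 1 + 1),
        Real.logb 2 (1 + (cnt (labOf (R :: Rs)) U a : ℝ)) := by
      apply h88_ga_eq
      · intro a ha
        exact (Finset.mem_Icc.1 ha).1
      · intro e _ he
        refine Finset.mem_Icc.2 ⟨he, ?_⟩
        have h4 := h88_labOf_le (List.pairwise_cons.1 h2).2 e
        by_cases hR : e ∈ R
        · simp [labOf, hR]
        · simp only [labOf, hR, if_false]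
          omega
    have e3 : cnt (labOf (R :: Rs)) U ((uni Rs).card + 1 + 1) = (R ∩ U).card := by
      unfold cnt
      congr 1
      ext e
      rw [Finset.mem_filter, Finset.mem_inter]
      constructor
      · rintro ⟨h3, h4⟩
        refine ⟨?_, h3⟩
        by_contra hR
        simp only [labOf, hR, if_false] at h4
        have h5 := h88_labOf_le (List.pairwise_cons.1 h2).2 e
        omega
      · rintro ⟨h3, h4⟩
        exact ⟨h4, by simp [labOf, h3]⟩
    have e4 : ∀ a ∈ Finset.Icc 2 ((uni Rs).card + 1),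
        cnt (labOf (R :: Rs)) U a = cnt (labOf Rs) U a := by
      intro a ha
      rw [Finset.mem_Icc] at ha
      unfold cnt
      congr 1
      ext e
      rw [Finset.mem_filter, Finset.mem_filter]
      refine and_congr_right fun _ => ?_
      by_cases hR : e ∈ R
      · have h6 : labOf Rs e = 0 :=
          (h88_labOf_zero_iff Rs e).2 (Finset.disjoint_left.1 hd hR)
        simp only [labOf, hR, if_true, h6]
        constructor
        · intro h; omega
        · intro h; omega
      · simp only [labOf, hR, if_false]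
    have e5 : ga (labOf (R :: Rs)) U =
        Real.logb 2 (1 + ((R ∩ U).card : ℝ)) + ga (labOf Rs) U := by
      rw [e2, Finset.sum_Icc_succ_top (by omega), e3, e1, add_comm]
      congr 1
      exact Finset.sum_congr rfl fun a ha => by rw [e4 a ha]
    rw [e5, Real.rpow_add (by norm_num), Real.rpow_logb (by norm_num) (by norm_num)
      (by positivity)]

theorem labP_ga {Rs : List (Finset (Sym2 (Fin n)))} {B : Finset (Sym2 (Fin n))}
    (h2 : Rs.Pairwise Disjoint) (h3 : Disjoint (uni Rs) B) (U : Finset (Sym2 (Fin n)))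
    (hU : Disjoint U B) :
    (Rs.map (fun R => (1 + ((R ∩ U).card : ℝ)))).prod = (2 : ℝ) ^ ga (labP Rs B) U := by
  rw [h88_labOf_ga h2 U]
  congr 1
  have h4 : ∀ e ∈ U, labOf Rs e = labP Rs B e := by
    intro e he
    have : e ∉ B := Finset.disjoint_left.1 hU he
    simp [labP, this]
  unfold ga
  have h5 : U.image (labOf Rs) = U.image (labP Rs B) := Finset.image_congr fun e he => h4 e he
  rw [h5]
  refine Finset.sum_congr rfl fun a _ => ?_
  have h6 : cnt (labOf Rs) U a = cnt (labP Rs B) U a := by
    unfold cnt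
    congr 1
    exact Finset.filter_congr fun e he => by rw [h4 e he]
  rw [h6]

end Pool.Agent.Helper65.CG
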